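import Mathlib
import Pool.Agent.Helper760.OracleSim4

set_option autoImplicit false

/-! # One optimal decompressor for all oracles -/

namespace Pool.Agent.J6H86.OP

open Pool.Agent.Helper760.OracleC Pool.Agent.Helper760.Kolm Pool.Agent.Helper760.OracleNF
  Pool.Agent.Helper760.OracleSim
open Encodable Filter

/-- the oracle as a function with values `0` and `1` -/
def gX (X : ℕ → Bool) : ℕ → ℕ := fun n => (X n).toNat

/-- the universal decompressor, given a known part of the oracle -/
def UU (σ : List ℕ) (q : List Bool) : Option (List Bool) :=
  ((List.range (σ.length + 1)).filterMap (att σ q)).head?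

theorem primrec_UU : Primrec₂ UU := by
  refine Primrec.list_head?.comp ?_
  have h1 : Primrec (fun z : List ℕ × List Bool => List.range (z.1.length + 1)) :=
    Primrec.list_range.comp (Primrec.succ.comp (Primrec.list_length.comp Primrec.fst))
  have h2 : Primrec₂ (fun (z : List ℕ × List Bool) (j : ℕ) => att z.1 z.2 j) := primrec_att
  exact Primrec.listFilterMap h1 h2

/-- the universal decompressor with oracle `X` -/
def VV (X : ℕ → Bool) : List Bool →. List Bool :=
  fun q => Nat.rfindOpt (fun k => UU (pre (gX X) k) q)

attribute [local irreducible] att

theorem optimalIn_VV (X : ℕ → Bool) : OptimalIn X (VV X) := by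
  set g : ℕ → ℕ := gX X with hg
  have hgX : (g : ℕ →. ℕ) = oracleFn X := rfl
  refine ⟨?_, ?_⟩
  · rw [← hgX]
    exact recIn_of_stepped g primrec_UU
  · intro W hW
    rw [← hgX] at hW
    obtain ⟨Fw, hFw0, hFw1, hFw2⟩ := normal_form g _ hW
    have hcomp : Partrec (fun z : List ℕ × ℕ => (Part.some (Fw z.1 z.2) : Part (Option ℕ))) :=
      hFw0.to_comp.partrec
    obtain ⟨cd, hcd⟩ := Nat.Partrec.Code.exists_code.1 hcomp
    refine ⟨encode cd + 1, fun p s hs => ⟨List.replicate (encode cd) true ++ false :: p, ?_, ?_⟩⟩
    · have hev : ∀ z : List ℕ × ℕ, cd.eval (encode z) = Part.some (encode (Fw z.1 z.2)) := by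
        intro z
        rw [hcd]
        simp only [encodek, Part.coe_some, Part.bind_some, Part.map_some]
      have hval : ∀ m, m ∈ (Part.bind (decode (α := List Bool) (encode p) : Option (List Bool))
          fun a => (W a).map encode) ↔ ∃ s' ∈ W p, encode s' = m := by
        intro m
        rw [encodek]
        simp
      -- soundness
      have hsound : ∀ k s', UU (pre g k) (List.replicate (encode cd) true ++ false :: p) =
          some s' → s' = s := by
        intro k s' h
        have h1 := List.mem_of_head? h
        rw [List.mem_filterMap] at h1
        obtain ⟨j, hj, h2⟩ := h1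
        rw [List.mem_range, length_pre] at hj
        unfold att at h2
        rw [ones_replicate, afterOnes_replicate, Denumerable.ofNat_encode,
          take_pre g (show j ≤ k by omega)] at h2
        simp only [Option.bind_eq_some_iff] at h2
        obtain ⟨r, hr, o, ho, m, hm, hd⟩ := h2
        have h3 := Nat.Partrec.Code.evaln_sound hr
        rw [hev] at h3
        have h4 := Part.mem_some_iff.1 h3
        subst h4
        rw [encodek] at ho
        simp only [Option.some.injEq] at ho
        rw [← ho] at hm
        obtain ⟨s'', hs'', rfl⟩ := (hval m).1 ((hFw2 (encode p) m).2 ⟨j, hm⟩)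
        rw [encodek] at hd
        simp only [Option.some.injEq] at hd
        subst hd
        exact Part.mem_unique hs'' hs
      -- completeness
      have hcomp2 : ∃ k s', UU (pre g k) (List.replicate (encode cd) true ++ false :: p) =
          some s' := by
        obtain ⟨j, hj⟩ := (hFw2 (encode p) (encode s)).1 ((hval _).2 ⟨s, hs, rfl⟩)
        have h1 : encode (Fw (pre g j) (encode p)) ∈ cd.eval (encode (pre g j, encode p)) := by
          rw [hev]; exact Part.mem_some _
        obtain ⟨t, ht⟩ := Nat.Partrec.Code.evaln_complete.1 h1
        refine ⟨max j t, ?_⟩
        have h2 : att (pre g (max j t)) (List.replicate (encode cd) true ++ false :: p) j =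
            some s := by
          unfold att
          rw [ones_replicate, afterOnes_replicate, Denumerable.ofNat_encode, length_pre,
            take_pre g (le_max_left j t)]
          have h3 := Nat.Partrec.Code.evaln_mono (le_max_right j t) ht
          have h4 : Nat.Partrec.Code.evaln (max j t) cd (encode (pre g j, encode p)) =
            some (encode (Fw (pre g j) (encode p))) := h3
          rw [h4]
          simp only [Option.bind_some, encodek, hj]
        cases hh : UU (pre g (max j t)) (List.replicate (encode cd) true ++ false :: p) with
        | some s' => exact ⟨s', rfl⟩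
        | none =>
          exfalso
          have h5 := List.head?_eq_none_iff.1 hh
          rw [List.filterMap_eq_nil_iff] at h5
          have h6 := h5 j (by rw [List.mem_range, length_pre]; omega)
          rw [h2] at h6
          simp at h6
      obtain ⟨k, s', hk⟩ := hcomp2
      have hdom := (Nat.rfindOpt_dom (f := fun k =>
        UU (pre g k) (List.replicate (encode cd) true ++ false :: p))).2 ⟨k, s', hk⟩
      have hmem := Part.get_mem hdom
      obtain ⟨k', hk'⟩ := Nat.rfindOpt_spec hmem
      have := hsound k' _ hk'
      rw [this] at hmem
      exact hmem
    · simp; omega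

end Pool.Agent.J6H86.OP
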