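import Mathlib
import Pool.Agent.J6H86.OP.Unif

set_option autoImplicit false

/-! # An oracle which no finite conditions replace with bounded error -/

namespace Pool.Agent.J6H86.OP

open Pool.Agent.Helper760.OracleC Pool.Agent.Helper760.Kolm Pool.Agent.Helper760.OracleNF
  Pool.Agent.Helper760.OracleSim
open Encodable Filter

/-- the first `k` bits of `X` -/
def bpre (X : ℕ → Bool) (k : ℕ) : List Bool := (List.range k).map X

@[simp] theorem length_bpre (X : ℕ → Bool) (k : ℕ) : (bpre X k).length = k := by simp [bpre]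

theorem take_bpre (X : ℕ → Bool) {j k : ℕ} (h : j ≤ k) : (bpre X k).take j = bpre X j := by
  unfold bpre
  rw [← List.map_take, List.take_range, min_eq_left h]

theorem bpre_prefix (X : ℕ → Bool) {j k : ℕ} (h : j ≤ k) : bpre X j <+: bpre X k := by
  rw [← take_bpre X h]
  exact List.take_prefix _ _

theorem pre_gX (X : ℕ → Bool) (k : ℕ) : pre (gX X) k = (bpre X k).map Bool.toNat := by
  unfold pre bpre gX
  rw [List.map_map]
  rfl

/-- the output of the universal decompressor once the bits `τ` of the oracle are known -/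
def fin (τ π : List Bool) : Option (List Bool) :=
  ((List.range (τ.length + 1)).filterMap
    (fun k => UU ((τ.take k).map Bool.toNat) π)).head?

theorem fin_mono {τ τ' : List Bool} (h : τ <+: τ') {π v : List Bool} (hv : fin τ π = some v) :
    fin τ' π = some v := by
  obtain ⟨ρ, rfl⟩ := h
  unfold fin at hv ⊢
  have h1 : List.range ((τ ++ ρ).length + 1) =
      List.range (τ.length + 1) ++ (List.range ρ.length).map (fun i => τ.length + 1 + i) := by
    rw [List.length_append, show τ.length + ρ.length + 1 = (τ.length + 1) + ρ.length by ring,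
      List.range_add]
  have h2 : (List.range (τ.length + 1)).filterMap
      (fun k => UU (((τ ++ ρ).take k).map Bool.toNat) π) =
      (List.range (τ.length + 1)).filterMap (fun k => UU ((τ.take k).map Bool.toNat) π) := by
    apply List.filterMap_congr
    intro k hk
    rw [List.mem_range] at hk
    rw [List.take_append_of_le_length (by omega)]
  rw [h1, List.filterMap_append, h2, List.head?_append, hv]
  rfl

theorem fin_of_VV {X : ℕ → Bool} {π v : List Bool} (h : v ∈ VV X π) :
    ∃ k, fin (bpre X k) π = some v := by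
  unfold VV Nat.rfindOpt at h
  rw [Part.mem_bind_iff] at h
  obtain ⟨n, hn, hv⟩ := h
  have hv' : UU (pre (gX X) n) π = some v := by
    simpa using hv
  refine ⟨n, ?_⟩
  unfold fin
  have h1 : ∀ k ≤ n, ((bpre X n).take k).map Bool.toNat = pre (gX X) k := by
    intro k hk
    rw [take_bpre X hk, pre_gX]
  have h2 : (List.range ((bpre X n).length + 1)).filterMap
      (fun k => UU (((bpre X n).take k).map Bool.toNat) π) = [v] := by
    rw [length_bpre, List.range_succ, List.filterMap_append]
    have h3 : (List.range n).filterMap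
        (fun k => UU (((bpre X n).take k).map Bool.toNat) π) = [] := by
      rw [List.filterMap_eq_nil_iff]
      intro k hk
      rw [List.mem_range] at hk
      rw [h1 k hk.le]
      have h4 := (Nat.mem_rfind.1 hn).2 hk
      simpa using h4
    have h5 : UU (((bpre X n).take n).map Bool.toNat) π = some v := by
      rw [h1 n le_rfl]; exact hv'
    rw [h3, List.nil_append]
    simp only [List.filterMap_cons, h5, List.filterMap_nil]
  rw [h2]
  rfl

/-! ### Incompressible strings found in the limit -/

section
variable (F : ℕ → List Bool × List Bool → Option (List Bool))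

/-- outputs found by time `T` of the programs of length at most `r` without condition -/
def outs (r T : ℕ) : List (List Bool) := (allLe r).filterMap (fun p => F T (p, []))

/-- the first string of length `r + 1` not among the outputs found by time `T` -/
def hT (r T : ℕ) : List Bool :=
  (((allLen (r + 1)).filterMap (fun s =>
    if ix s (outs F r T) < (outs F r T).length then none else some s)).head?).getD []

theorem ix_lt_iff {s : List Bool} {L : List (List Bool)} : ix s L < L.length ↔ s ∈ L := by
  unfold ix
  exact @List.idxOf_lt_length_iff (List Bool) instBEqOfDecidableEq inferInstance L s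

theorem hT_spec (r T : ℕ) : hT F r T ∈ allLen (r + 1) ∧ hT F r T ∉ outs F r T := by
  have hex : ∃ s ∈ allLen (r + 1), s ∉ outs F r T := by
    by_contra hcon
    push Not at hcon
    have h1 : (allLen (r + 1)).length ≤ (outs F r T).length :=
      ((nodup_allLen (r + 1)).subperm hcon).length_le
    have h2 : (outs F r T).length ≤ (allLe r).length := List.length_filterMap_le _ _
    have h3 := length_allLe r
    rw [length_allLen] at h1
    omega
  obtain ⟨s, hs, hsn⟩ := hex
  unfold hT
  cases h : ((allLen (r + 1)).filterMap (fun s =>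
    if ix s (outs F r T) < (outs F r T).length then none else some s)).head? with
  | none =>
    exfalso
    rw [List.head?_eq_none_iff, List.filterMap_eq_nil_iff] at h
    have := h s hs
    rw [if_neg (by rw [ix_lt_iff]; exact hsn)] at this
    simp at this
  | some v =>
    have h1 := List.mem_of_head? h
    rw [List.mem_filterMap] at h1
    obtain ⟨v', hv', h2⟩ := h1
    split_ifs at h2 with h3
    simp only [Option.some.injEq] at h2
    subst h2
    rw [ix_lt_iff] at h3
    exact ⟨hv', h3⟩

theorem outs_stable (hmono : ∀ t t' a s, t ≤ t' → F t a = some s → F t' a = some s) (r : ℕ) :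
    ∃ T, ∀ T' ≥ T, outs F r T' = outs F r T := by
  have h1 : ∀ L : List (List Bool), ∃ T, ∀ T' ≥ T, ∀ p ∈ L, F T' (p, []) = F T (p, []) := by
    intro L
    induction L with
    | nil => exact ⟨0, by simp⟩
    | cons p L ih =>
      obtain ⟨T, hT⟩ := ih
      by_cases hp : ∃ t v, F t (p, []) = some v
      · obtain ⟨t, v, hv⟩ := hp
        refine ⟨max T t, ?_⟩
        intro T' hT' q hq
        rcases List.mem_cons.1 hq with rfl | hq
        · rw [hmono t T' _ _ (le_trans (le_max_right _ _) hT') hv,
            hmono t (max T t) _ _ (le_max_right _ _) hv]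
        · rw [hT T' (le_trans (le_max_left _ _) hT') q hq, hT (max T t) (le_max_left _ _) q hq]
      · push Not at hp
        refine ⟨T, ?_⟩
        intro T' hT' q hq
        rcases List.mem_cons.1 hq with rfl | hq
        · have h2 : ∀ t, F t (q, []) = none := by
            intro t
            cases h3 : F t (q, []) with
            | none => rfl
            | some v => exact absurd h3 (hp t v)
          rw [h2, h2]
        · exact hT T' hT' q hq
  obtain ⟨T, hT⟩ := h1 (allLe r)
  refine ⟨T, fun T' hT' => ?_⟩
  unfold outs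
  exact List.filterMap_congr (fun p hp => hT T' hT' p hp)

variable {F}

theorem primrec_hT (hF : Primrec₂ F) : Primrec₂ (hT F) := by
  have ho : Primrec (fun z : ℕ × ℕ => outs F z.1 z.2) := by
    unfold outs
    refine Primrec.listFilterMap (primrec_allLe.comp Primrec.fst) ?_
    exact hF.comp (Primrec.snd.comp Primrec.fst)
      (Primrec.pair Primrec.snd (Primrec.const []))
  unfold hT
  refine Primrec.option_getD.comp (Primrec.list_head?.comp ?_) (Primrec.const [])
  refine Primrec.listFilterMap ?_ ?_
  · exact primrec_allLen.comp (Primrec.succ.comp Primrec.fst)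
  · have ho' : Primrec (fun z : (ℕ × ℕ) × List Bool => outs F z.1.1 z.1.2) :=
      ho.comp Primrec.fst
    refine Primrec.ite ?_ (Primrec.const none) (Primrec.option_some.comp Primrec.snd)
    refine Primrec.nat_lt.comp ?_ (Primrec.list_length.comp ho')
    unfold ix
    exact Primrec.list_idxOf.comp Primrec.snd ho'

end

/-! ### Extending finite parts of the oracle -/

/-- number of programs of length at most `l` that give an output once `τ` is known -/
def cnt (l : ℕ) (τ : List Bool) : ℕ := ((allLe l).filterMap (fun π => fin τ π)).length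

theorem cnt_eq (l : ℕ) (τ : List Bool) :
    cnt l τ = (allLe l).countP (fun π => (fin τ π).isSome) := by
  unfold cnt
  exact List.length_filterMap_eq_countP

theorem countP_tight {α : Type*} (p q : α → Bool) (L : List α) (h : ∀ a ∈ L, p a → q a)
    (hle : L.countP q ≤ L.countP p) : ∀ a ∈ L, q a → p a := by
  induction L with
  | nil => simp
  | cons b L ih =>
    have h1 : L.countP p ≤ L.countP q :=
      List.countP_mono_left (fun a ha => h a (List.mem_cons_of_mem _ ha))
    rw [List.countP_cons, List.countP_cons] at hle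
    have hb := h b List.mem_cons_self
    have h2 : L.countP q ≤ L.countP p ∧ (q b → p b) := by
      cases hp : p b <;> cases hq : q b <;> (simp_all; try omega)
    intro a ha hqa
    rcases List.mem_cons.1 ha with rfl | ha
    · exact h2.2 hqa
    · exact ih (fun a ha => h a (List.mem_cons_of_mem _ ha)) h2.1 a ha hqa

theorem primrec_fin : Primrec₂ fin := by
  unfold fin
  refine Primrec.list_head?.comp ?_
  refine Primrec.listFilterMap ?_ ?_
  · exact Primrec.list_range.comp (Primrec.succ.comp (Primrec.list_length.comp Primrec.fst))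
  · refine primrec_UU.comp ?_ (Primrec.snd.comp Primrec.fst)
    refine Primrec.list_map ?_ ?_
    · exact Primrec.list_take.comp Primrec.snd (Primrec.fst.comp Primrec.fst)
    · exact (Primrec.dom_finite Bool.toNat).comp Primrec.snd

attribute [local irreducible] fin

theorem primrec_cnt : Primrec₂ cnt := by
  unfold cnt
  refine Primrec.list_length.comp ?_
  refine Primrec.listFilterMap (primrec_allLe.comp Primrec.fst) ?_
  exact primrec_fin.comp (Primrec.snd.comp Primrec.fst) Primrec.snd

attribute [local irreducible] cnt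

/-- searching for an extension of `z.1` with `z.2.2` convergent programs of length at most
`z.2.1` -/
def srch (z : List Bool × ℕ × ℕ) (t : ℕ) : Option (List Bool) :=
  (decode (α := List Bool) t).bind fun τ =>
    if τ.take z.1.length = z.1 ∧ z.2.2 ≤ cnt z.2.1 τ then some τ else none

theorem primrec_srch' : Primrec₂ srch := by
  unfold srch
  refine Primrec.option_bind (Primrec.decode.comp Primrec.snd) ?_
  refine Primrec.ite ?_ (Primrec.option_some.comp Primrec.snd) (Primrec.const none)
  have h1 : Primrec (fun a : ((List Bool × ℕ × ℕ) × ℕ) × List Bool =>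
      a.2.take a.1.1.1.length) :=
    Primrec.list_take.comp (Primrec.list_length.comp
      (Primrec.fst.comp (Primrec.fst.comp Primrec.fst))) Primrec.snd
  have h2 : Primrec (fun a : ((List Bool × ℕ × ℕ) × ℕ) × List Bool => a.1.1.1) :=
    Primrec.fst.comp (Primrec.fst.comp Primrec.fst)
  have h3 : Primrec (fun a : ((List Bool × ℕ × ℕ) × ℕ) × List Bool => a.1.1.2.2) :=
    Primrec.snd.comp (Primrec.snd.comp (Primrec.fst.comp Primrec.fst))
  have h4 : Primrec (fun a : ((List Bool × ℕ × ℕ) × ℕ) × List Bool => cnt a.1.1.2.1 a.2) :=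
    primrec_cnt.comp (Primrec.fst.comp (Primrec.snd.comp (Primrec.fst.comp Primrec.fst)))
      Primrec.snd
  exact (Primrec.eq.comp h1 h2).and (Primrec.nat_le.comp h3 h4)

/-- a decompressor for the outputs that can be forced -/
def dec (q _y : List Bool) : Part (List Bool) :=
  (Part.ofOption (decode (α := List Bool × ℕ × ℕ) (numOf q))).bind fun z =>
    (Nat.rfindOpt (srch z)).bind fun τ => Part.ofOption (fin τ (restOf q))

theorem partrec_dec : Partrec₂ dec := by
  unfold dec
  refine Partrec.bind ?_ ?_
  · exact ((Primrec.decode.comp (primrec_numOf.comp Primrec.fst)).to_comp).ofOption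
  · refine Partrec.bind ?_ ?_
    · refine Partrec.rfindOpt ?_
      exact (primrec_srch'.to_comp).comp (Computable.snd.comp Computable.fst) Computable.snd
    · have h1 : Primrec (fun a : ((List Bool × List Bool) × (List Bool × ℕ × ℕ)) × List Bool =>
          fin a.2 (restOf a.1.1.1)) :=
        primrec_fin.comp Primrec.snd (primrec_restOf.comp
          (Primrec.fst.comp (Primrec.fst.comp Primrec.fst)))
      exact h1.to_comp.ofOption

theorem pair_le (a b : ℕ) : Nat.pair a b ≤ (a + b + 1) ^ 2 := by
  have h1 := Nat.pair_lt_max_add_one_sq a b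
  have h2 : max a b + 1 ≤ a + b + 1 := by
    have := max_le (Nat.le_add_right a b) (Nat.le_add_left b a)
    omega
  exact h1.le.trans (Nat.pow_le_pow_left h2 2)

theorem size_pair_le (A l k : ℕ) (hk : k ≤ 2 ^ (l + 1)) :
    Nat.size (Nat.pair A (Nat.pair l k)) ≤ 2 * A + 4 * l + 11 := by
  have h1 : Nat.pair l k ≤ 2 ^ (2 * l + 4) := by
    have h2 : l + 1 ≤ 2 ^ l := Nat.lt_pow_self (by norm_num)
    have h3 : l + k + 1 ≤ 2 ^ (l + 2) := by
      have h4 : 2 ^ (l + 1) = 2 * 2 ^ l := by ring
      have h5 : 2 ^ (l + 2) = 4 * 2 ^ l := by ring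
      omega
    calc Nat.pair l k ≤ (l + k + 1) ^ 2 := pair_le _ _
      _ ≤ (2 ^ (l + 2)) ^ 2 := Nat.pow_le_pow_left h3 2
      _ = 2 ^ (2 * l + 4) := by rw [← pow_mul]; ring_nf
  have h6 : Nat.pair A (Nat.pair l k) ≤ 2 ^ (2 * A + 4 * l + 10) := by
    have h2 : A + 1 ≤ 2 ^ A := Nat.lt_pow_self (by norm_num)
    have h3 : A + Nat.pair l k + 1 ≤ 2 ^ (A + 2 * l + 5) := by
      have h4 : 2 ^ A * 1 ≤ 2 ^ A * 2 ^ (2 * l + 4) :=
        Nat.mul_le_mul_left _ Nat.one_le_two_pow
      have h5 : 1 * 2 ^ (2 * l + 4) ≤ 2 ^ A * 2 ^ (2 * l + 4) :=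
        Nat.mul_le_mul_right _ Nat.one_le_two_pow
      have h7 : 2 ^ (A + 2 * l + 5) = 2 * (2 ^ A * 2 ^ (2 * l + 4)) := by
        rw [← pow_add, ← pow_succ']; congr 1
      omega
    calc Nat.pair A (Nat.pair l k) ≤ (A + Nat.pair l k + 1) ^ 2 := pair_le _ _
      _ ≤ (2 ^ (A + 2 * l + 5)) ^ 2 := Nat.pow_le_pow_left h3 2
      _ = 2 ^ (2 * A + 4 * l + 10) := by rw [← pow_mul]; ring_nf
  rw [Nat.size_le]
  calc Nat.pair A (Nat.pair l k) ≤ 2 ^ (2 * A + 4 * l + 10) := h6
    _ < 2 ^ (2 * A + 4 * l + 11) := Nat.pow_lt_pow_right (by norm_num) (by omega)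

theorem big_pow (K : ℕ) : 19 * K + 198 ≤ 2 ^ (K + 10) := by
  induction K with
  | zero => norm_num
  | succ K ih =>
    have : 2 ^ (K + 1 + 10) = 2 * 2 ^ (K + 10) := by ring
    omega

section
variable {D : List Bool → List Bool →. List Bool} (hD : OptimalCond D)
variable {F : ℕ → List Bool × List Bool → Option (List Bool)}
  (hF1 : ∀ p y s, s ∈ D p y ↔ ∃ t, F t (p, y) = some s)

include hD in
/-- **Forcing the incompressible strings to be complex for the oracle.** -/
theorem force_two (hh : ℕ → List Bool) (hh1 : ∀ r p, p.length ≤ r → hh r ∉ D p [])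
    (e : ℕ) (σ : List Bool) :
    ∃ τ, σ <+: τ ∧ ∃ r ≥ e, ∀ ν, τ <+: ν → ∀ π : List Bool, π.length ≤ 2 * Nat.size r + e →
      fin ν π ≠ some (hh r) := by
  classical
  obtain ⟨c, hc⟩ := hD.2 dec partrec_dec
  set A := encode σ with hA
  set K := 4 * A + 9 * e + 23 + c with hK
  set r := 2 ^ (K + 10) with hr
  have hsz : Nat.size r = K + 11 := by
    rw [hr, Nat.size_pow]
  set l := 2 * Nat.size r + e with hl
  have hle : 4 * A + 9 * l + 23 + c ≤ r := by
    have h1 := big_pow K
    have h2 : 9 * l = 18 * (K + 11) + 9 * e := by rw [hl, hsz]; ring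
    omega
  -- an extension with as many outputs as possible
  have hbd : ∀ τ, cnt l τ ≤ (allLe l).length := by
    intro τ
    rw [cnt_eq]
    exact List.countP_le_length
  obtain ⟨k, ⟨τ0, hτ0, hk0⟩, hkmax⟩ : ∃ k, (∃ τ, σ <+: τ ∧ cnt l τ = k) ∧
      ∀ τ, σ <+: τ → cnt l τ ≤ k := by
    have hne : ∃ m, ∀ τ, σ <+: τ → cnt l τ ≤ m := ⟨_, fun τ _ => hbd τ⟩
    refine ⟨Nat.find hne, ?_, Nat.find_spec hne⟩
    by_contra hcon
    push Not at hcon
    rcases Nat.eq_zero_or_pos (Nat.find hne) with h0 | h0
    · have h1 := Nat.find_spec hne σ List.prefix_rfl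
      have h2 := hcon σ List.prefix_rfl
      omega
    · refine Nat.find_min hne (show Nat.find hne - 1 < Nat.find hne by omega) ?_
      intro τ hτ
      have h1 := Nat.find_spec hne τ hτ
      have h2 := hcon τ hτ
      omega
  have hk2 : k ≤ 2 ^ (l + 1) := by
    have h1 := hbd τ0
    have h2 := length_allLe l
    omega
  -- the extension found by the search
  have hdom : (Nat.rfindOpt (srch (σ, l, k))).Dom := by
    rw [Nat.rfindOpt_dom]
    rw [List.prefix_iff_eq_take] at hτ0
    refine ⟨encode τ0, τ0, ?_⟩
    simp only [srch, encodek, Option.bind_some, Option.mem_def]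
    exact if_pos ⟨hτ0.symm, hk0.ge⟩
  obtain ⟨τ, hτ⟩ := Part.dom_iff_mem.1 hdom
  obtain ⟨t, ht⟩ := Nat.rfindOpt_spec hτ
  have hτ2 : σ <+: τ ∧ k ≤ cnt l τ := by
    simp only [srch, Option.mem_def, Option.bind_eq_some_iff] at ht
    obtain ⟨τ', _, h2⟩ := ht
    split_ifs at h2 with h3
    simp only [Option.some.injEq] at h2
    subst h2
    refine ⟨?_, h3.2⟩
    rw [← h3.1]
    exact List.take_prefix _ _
  refine ⟨τ, hτ2.1, r, ?_, ?_⟩
  · have := hle
    omega
  intro ν hν π hπ hfin
  have h1 : cnt l ν ≤ cnt l τ := (hkmax ν (hτ2.1.trans hν)).trans hτ2.2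
  rw [cnt_eq, cnt_eq] at h1
  have h2 := countP_tight (fun π => (fin τ π).isSome) (fun π => (fin ν π).isSome) (allLe l)
    (by
      intro a _ ha
      obtain ⟨v, hv⟩ := Option.isSome_iff_exists.1 ha
      rw [fin_mono hν hv]
      rfl) h1 π ((mem_allLe l π).2 hπ) (by rw [hfin]; rfl)
  obtain ⟨v, hv⟩ := Option.isSome_iff_exists.1 h2
  have h3 := fin_mono hν hv
  rw [hfin] at h3
  simp only [Option.some.injEq] at h3
  subst h3
  -- a short program
  have h4 : hh r ∈ dec (putNum (encode (σ, l, k)) π) [] := by
    unfold dec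
    rw [numOf_putNum, restOf_putNum, encodek]
    simp only [Part.mem_bind_iff]
    exact ⟨(σ, l, k), by simp, τ, hτ, by rw [hv]; simp⟩
  obtain ⟨p, hp, hpl⟩ := hc _ _ _ h4
  refine hh1 r p ?_ hp
  rw [length_putNum] at hpl
  have h5 := size_pair_le A l k hk2
  have h6 : encode (σ, l, k) = Nat.pair A (Nat.pair l k) := rfl
  rw [h6] at hpl
  omega

/-- **Forcing initial segments of the oracle to be complex.** -/
theorem force_one (e : ℕ) (σ : List Bool) :
    ∃ τ, σ <+: τ ∧ e ≤ τ.length ∧ ∀ x : List Bool, x.length ≤ e → ∀ p : List Bool,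
      p.length ≤ 2 * Nat.size τ.length + e → τ ∉ D p x := by
  classical
  set j := σ.length + e + 10 with hj
  set d := 2 ^ j with hd
  have hσd : σ.length ≤ d := by
    have h1 : j < 2 ^ j := Nat.lt_pow_self (by norm_num)
    omega
  have hsz : Nat.size (σ.length + d) ≤ j + 2 := by
    rw [Nat.size_le]
    have h1 : 2 ^ (j + 2) = 4 * 2 ^ j := by ring
    have h2 : 0 < 2 ^ j := by positivity
    omega
  have hbig : 2 * e + 2 * (j + 2) + 2 ≤ d := by
    have h1 := big_pow (σ.length + e)
    rw [← hj, ← hd] at h1
    omega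
  by_contra hcon
  push Not at hcon
  have h1 : ∀ ρ ∈ allLen d, ∃ z : List Bool × List Bool,
      z.1.length ≤ e ∧ z.2.length ≤ 2 * Nat.size (σ.length + d) + e ∧ σ ++ ρ ∈ D z.2 z.1 := by
    intro ρ hρ
    rw [mem_allLen] at hρ
    have h2 : (σ ++ ρ).length = σ.length + d := by rw [List.length_append, hρ]
    have h3 : e ≤ (σ ++ ρ).length := by
      rw [h2]
      omega
    obtain ⟨x, hx, p, hp, hmem⟩ := hcon (σ ++ ρ) (List.prefix_append _ _) h3
    rw [h2] at hp
    exact ⟨(x, p), hx, hp, hmem⟩
  choose! f hf1 hf2 hf3 using h1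
  have h4 : (allLen d).toFinset.card ≤ ((allLe e).toFinset ×ˢ
      (allLe (2 * Nat.size (σ.length + d) + e)).toFinset).card := by
    refine Finset.card_le_card_of_injOn f ?_ ?_
    · intro ρ hρ
      have hρ' : ρ ∈ allLen d := by simpa using hρ
      simp only [Finset.coe_product, Set.mem_prod, Finset.mem_coe, List.mem_toFinset, mem_allLe]
      exact ⟨hf1 ρ hρ', hf2 ρ hρ'⟩
    · intro ρ hρ ρ' hρ' heq
      have h5 : ρ ∈ allLen d := by simpa using hρ
      have h6 : ρ' ∈ allLen d := by simpa using hρ'
      have h7 := hf3 ρ h5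
      have h8 := hf3 ρ' h6
      rw [heq] at h7
      exact List.append_cancel_left (Part.mem_unique h7 h8)
  rw [List.toFinset_card_of_nodup (nodup_allLen d), length_allLen, Finset.card_product] at h4
  have h5 : (allLe e).toFinset.card ≤ 2 ^ (e + 1) := by
    have := List.toFinset_card_le (allLe e)
    have h6 := length_allLe e
    omega
  have h6 : (allLe (2 * Nat.size (σ.length + d) + e)).toFinset.card + 1 ≤
      2 ^ (2 * (j + 2) + e + 1) := by
    have := List.toFinset_card_le (allLe (2 * Nat.size (σ.length + d) + e))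
    have h7 := length_allLe (2 * Nat.size (σ.length + d) + e)
    have h8 : 2 ^ (2 * Nat.size (σ.length + d) + e + 1) ≤ 2 ^ (2 * (j + 2) + e + 1) :=
      Nat.pow_le_pow_right (by norm_num) (by omega)
    omega
  have h7 : (allLe e).toFinset.card * (allLe (2 * Nat.size (σ.length + d) + e)).toFinset.card <
      2 ^ (e + 1) * 2 ^ (2 * (j + 2) + e + 1) := by
    calc _ ≤ 2 ^ (e + 1) * (allLe (2 * Nat.size (σ.length + d) + e)).toFinset.card :=
          Nat.mul_le_mul_right _ h5
      _ < 2 ^ (e + 1) * 2 ^ (2 * (j + 2) + e + 1) :=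
          Nat.mul_lt_mul_of_pos_left (by omega) (by positivity)
  have h8 : 2 ^ (e + 1) * 2 ^ (2 * (j + 2) + e + 1) ≤ 2 ^ d := by
    rw [← pow_add]
    exact Nat.pow_le_pow_right (by norm_num) (by omega)
  omega

end

/-- a sequence meeting countably many requirements on finite parts -/
theorem exists_generic (P : ℕ → List Bool → Prop) (h : ∀ e σ, ∃ τ, σ <+: τ ∧ P e τ) :
    ∃ X : ℕ → Bool, ∀ e, ∃ k, P e (bpre X k) := by
  choose f hf1 hf2 using h
  let s : ℕ → List Bool := fun n => Nat.rec [] (fun e σ => f e σ ++ [false]) n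
  have hs : ∀ n, s (n + 1) = f n (s n) ++ [false] := fun n => rfl
  have hstep : ∀ n, s n <+: s (n + 1) := by
    intro n
    rw [hs]
    exact (hf1 n (s n)).trans (List.prefix_append _ _)
  have hmono : ∀ {m n}, m ≤ n → s m <+: s n := by
    intro m n hmn
    induction n, hmn using Nat.le_induction with
    | base => exact List.prefix_rfl
    | succ n _ ih => exact ih.trans (hstep n)
  have hlen : ∀ n, n ≤ (s n).length := by
    intro n
    induction n with
    | zero => exact Nat.zero_le _
    | succ n ih =>
      rw [hs, List.length_append]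
      have := (hf1 n (s n)).length_le
      simp only [List.length_cons, List.length_nil]
      omega
  refine ⟨fun n => (s (n + 1)).getD n false, ?_⟩
  have hX : ∀ m k, k ≤ (s m).length → bpre (fun n => (s (n + 1)).getD n false) k =
      (s m).take k := by
    intro m k hk
    apply List.ext_getElem
    · simp [hk]
    · intro i h1 h2
      rw [length_bpre] at h1
      simp only [bpre, List.getElem_map, List.getElem_range, List.getElem_take]
      have h3 : i < (s (i + 1)).length := by
        have := hlen (i + 1)
        omega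
      rw [List.getD_eq_getElem _ _ h3]
      rcases le_total m (i + 1) with hle | hle
      · exact (List.IsPrefix.getElem (hmono hle) (by omega)).symm
      · exact List.IsPrefix.getElem (hmono hle) h3
  intro e
  refine ⟨(f e (s e)).length, ?_⟩
  have h1 : (s (e + 1)).take (f e (s e)).length = f e (s e) := by
    rw [hs, List.take_left']
    rfl
  rw [hX (e + 1) _ (by rw [hs]; simp), h1]
  exact hf2 e (s e)

end Pool.Agent.J6H86.OP
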