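import Mathlib
import Pool.Agent.Helper760.OracleSim4

set_option autoImplicit false

/-!
# Replacing an oracle by a finite condition with arbitrarily slowly growing error

The process of `Pool.Agent.Helper760.OracleSim` is run with a length bound `N` taken from a sparse
computable set of numbers, which a decoder with the oracle can name by very few bits and a decoder
with the condition can read off from the length of the condition.
-/

namespace Pool.Agent.J6H86.OP

open Pool.Agent.Helper760.OracleC Pool.Agent.Helper760.Kolm Pool.Agent.Helper760.OracleNF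
  Pool.Agent.Helper760.OracleSim
open Encodable Filter

/-- the length of the conditions of the process with bound `N` -/
def len (N : ℕ) : ℕ := (2 * N + 4) * 2 ^ (N + 2)

theorem len_strictMono : StrictMono len := by
  intro a b hab
  unfold len
  have h1 : 2 ^ (a + 2) ≤ 2 ^ (b + 2) := Nat.pow_le_pow_right (by norm_num) (by omega)
  have h2 : 0 < 2 ^ (a + 2) := by positivity
  calc (2 * a + 4) * 2 ^ (a + 2) < (2 * b + 4) * 2 ^ (a + 2) :=
        Nat.mul_lt_mul_of_pos_right (by omega) h2
    _ ≤ (2 * b + 4) * 2 ^ (b + 2) := Nat.mul_le_mul_left _ h1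

/-- the bound `N` read off from the length of a condition -/
def unlen (l : ℕ) : ℕ :=
  (((List.range (l + 1)).filterMap (fun N => if len N = l then some N else none)).head?).getD 0

theorem unlen_len (N : ℕ) : unlen (len N) = N := by
  have h0 : N < len N + 1 := by
    unfold len
    have : 0 < 2 ^ (N + 2) := by positivity
    nlinarith
  unfold unlen
  cases h : ((List.range (len N + 1)).filterMap
      (fun M => if len M = len N then some M else none)).head? with
  | none =>
    exfalso
    rw [List.head?_eq_none_iff, List.filterMap_eq_nil_iff] at h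
    have := h N (List.mem_range.2 h0)
    simp at this
  | some M =>
    have h1 := List.mem_of_head? h
    rw [List.mem_filterMap] at h1
    obtain ⟨M', _, h2⟩ := h1
    split_ifs at h2 with h3
    simp only [Option.some.injEq] at h2
    rw [Option.getD_some, ← h2]
    exact len_strictMono.injective h3

theorem primrec_len : Primrec len := by
  unfold len
  refine Primrec.nat_mul.comp ?_ ?_
  · exact Primrec.nat_add.comp (Primrec.nat_mul.comp (Primrec.const 2) Primrec.id)
      (Primrec.const 4)
  · exact primrec_pow.comp (Primrec.const 2) (Primrec.nat_add.comp Primrec.id (Primrec.const 2))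

theorem primrec_unlen : Primrec unlen := by
  unfold unlen
  refine Primrec.option_getD.comp (Primrec.list_head?.comp ?_) (Primrec.const 0)
  refine Primrec.listFilterMap (Primrec.list_range.comp Primrec.succ) ?_
  refine Primrec.ite ?_ (Primrec.option_some.comp Primrec.snd) (Primrec.const none)
  exact Primrec.eq.comp (primrec_len.comp Primrec.snd) Primrec.fst

theorem size_le_half (m : ℕ) : 2 * Nat.size m ≤ m + 6 := by
  rcases Nat.eq_zero_or_pos m with rfl | hm
  · simp
  · have h1 : 2 ^ (Nat.size m - 1) ≤ m := Nat.lt_size.1 (by
      have := Nat.size_pos.2 hm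
      omega)
    have h2 : ∀ s : ℕ, 2 * s ≤ 2 ^ s + 2 := by
      intro s
      induction s with
      | zero => norm_num
      | succ s ih =>
        rcases Nat.lt_or_ge s 2 with h | h
        · interval_cases s <;> norm_num
        · have h3 : 2 ^ 2 ≤ 2 ^ s := Nat.pow_le_pow_right (by norm_num) h
          have h4 : 2 ^ (s + 1) = 2 ^ s + 2 ^ s := by ring
          omega
    have h3 := h2 (Nat.size m - 1)
    omega

/-- a computable function that outgrows the inverse of `g` -/
theorem exists_inverse (g : ℕ → ℕ) (hg : Computable g) (hm : Monotone g)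
    (ht : Tendsto g atTop atTop) : ∃ F : ℕ → ℕ, Computable F ∧ ∀ n, n ≤ F (g n) := by
  have hex : ∀ i, ∃ m, i < g m := by
    intro i
    obtain ⟨m, hm⟩ := (ht.eventually_ge_atTop (i + 1)).exists
    exact ⟨m, hm⟩
  classical
  refine ⟨fun i => Nat.find (hex i), ?_, ?_⟩
  · have h1 : Computable₂ (fun (i m : ℕ) => decide (i < g m)) := by
      have h2 : Primrec₂ (fun a b : ℕ => decide (a < b)) := Primrec.nat_lt.decide
      exact h2.to_comp.comp Computable.fst (hg.comp Computable.snd)
    have h3 : Partrec (fun i : ℕ => Nat.rfind (fun m => Part.some (decide (i < g m)))) :=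
      Partrec.rfind h1.partrec₂
    refine h3.of_eq ?_
    intro i
    have h4 : Nat.find (hex i) ∈ Nat.rfind (fun m => Part.some (decide (i < g m))) := by
      refine Nat.mem_rfind.2 ⟨?_, ?_⟩
      · have := Nat.find_spec (hex i)
        simpa using this
      · intro m hmlt
        have := Nat.find_min (hex i) hmlt
        simpa using this
    exact Part.eq_some_iff.2 h4
  · intro n
    by_contra hcon
    push Not at hcon
    have h1 := Nat.find_spec (hex (g n))
    have h2 := hm hcon.le
    omega

/-- **Arbitrarily slowly growing error.** -/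
theorem simulate_slow (X : ℕ → Bool) (D : List Bool → List Bool →. List Bool)
    (hD : OptimalCond D) (V : List Bool →. List Bool) (hV : OptimalIn X V)
    (g' : ℕ → ℕ) (hg' : Computable g') (hm : Monotone g') (ht : Tendsto g' atTop atTop) :
    ∃ c : ℕ, ∀ n, ∃ x : List Bool, ∀ s : List Bool, s.length ≤ n →
      condC D s x ≤ oracleC V s + c ∧ oracleC V s ≤ condC D s x + g' n + c := by
  classical
  obtain ⟨B, hB, hBn⟩ := exists_inverse g' hg' hm ht
  obtain ⟨F, hF0, hF1, hF2⟩ := exists_stepped (f := fun a : List Bool × List Bool => D a.1 a.2) hD.1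
  set g : ℕ → ℕ := fun n => (X n).toNat with hg
  have hgX : (g : ℕ →. ℕ) = oracleFn X := rfl
  obtain ⟨Fv, hFv0, hFv1, hFv2⟩ := normal_form g _ (by rw [hgX]; exact hV.1)
  set G : List ℕ → List Bool → Option (List Bool) := fun σ p => (Fv σ (encode p)).bind
    (fun m => decode (α := List Bool) m) with hG
  have hG0 : Primrec₂ G :=
    Primrec.option_bind (hFv0.comp Primrec.fst (Primrec.encode.comp Primrec.snd))
      (Primrec.decode.comp Primrec.snd)
  have hG1 : ∀ p s, s ∈ V p ↔ ∃ k, G (pre g k) p = some s := by
    intro p s
    have h1 : ∀ m, m ∈ (Part.bind (decode (α := List Bool) (encode p) : Option (List Bool))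
        fun a => (V a).map encode) ↔ ∃ s' ∈ V p, encode s' = m := by
      intro m
      rw [encodek]
      simp
    constructor
    · intro hs
      obtain ⟨k, hk⟩ := (hFv2 (encode p) (encode s)).1 ((h1 _).2 ⟨s, hs, rfl⟩)
      refine ⟨k, ?_⟩
      simp only [hG, hk, Option.bind_some, encodek]
    · rintro ⟨k, hk⟩
      simp only [hG, Option.bind_eq_some_iff] at hk
      obtain ⟨m, hm, hd⟩ := hk
      obtain ⟨s', hs', rfl⟩ := (h1 m).1 ((hFv2 (encode p) m).2 ⟨k, hm⟩)
      rw [encodek] at hd
      simp only [Option.some.injEq] at hd
      subst hd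
      exact hs'
  have hG2 : ∀ k k' p s, k ≤ k' → G (pre g k) p = some s → G (pre g k') p = some s := by
    intro k k' p s hkk h
    simp only [hG, Option.bind_eq_some_iff] at h ⊢
    obtain ⟨m, hm, hd⟩ := h
    exact ⟨m, hFv1 _ _ _ _ (pre_le g hkk) hm, hd⟩
  have hcore := fun n => core (D := D) (V := V) (F := F) (G := G) (g := g)
    (fun a s => hF1 a s) hF2 hG1 hG2 n
  choose x hx1 hx2 hx3 using hcore
  -- the decoder with the condition
  obtain ⟨c1, hc1⟩ := hD.2 (fun q y =>
      Nat.rfindOpt (fun k => look false q (tr F (unlen y.length) y k).2)) (by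
    refine Partrec.rfindOpt ?_
    have h0 : Primrec (fun z : (List Bool × List Bool) × ℕ => unlen z.1.2.length) :=
      primrec_unlen.comp (Primrec.list_length.comp (Primrec.snd.comp Primrec.fst))
    have h1 : Primrec (fun z : (List Bool × List Bool) × ℕ =>
        (tr F (unlen z.1.2.length) z.1.2 z.2).2) :=
      Primrec.snd.comp ((primrec_tr hF0).comp (Primrec.pair
        h0 (Primrec.snd.comp Primrec.fst)) Primrec.snd)
    have h3 : Primrec (fun z : (List Bool × List Bool) × ℕ =>
        look false z.1.1 (tr F (unlen z.1.2.length) z.1.2 z.2).2) :=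
      primrec_look.comp (Primrec.pair (Primrec.const false) (Primrec.pair
        (Primrec.fst.comp Primrec.fst) h1))
    exact h3.to_comp.to₂)
  -- the decoder with the oracle
  obtain ⟨c2, hc2⟩ := hV.2 (fun q =>
      Nat.rfindOpt (fun k => look true (restOf q) (runS F G (B (numOf q)) (pre g k)).2)) (by
    -- `B` is total computable, so its steps can be hidden in the search
    obtain ⟨FB, hFB0, hFB1, hFB2⟩ := exists_stepped (f := fun i : ℕ => Part.some (B i)) hB
    have hB1 : ∀ i m, FB m i = some (B i) ∨ FB m i = none := by
      intro i m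
      cases h : FB m i with
      | none => right; rfl
      | some b =>
        left
        have := (hFB1 i b).2 ⟨m, h⟩
        rw [Part.mem_some_iff] at this
        rw [this]
    have h1 : Primrec (fun z : List ℕ × List Bool => (FB z.1.length (numOf z.2)).bind
        (fun N => look true (restOf z.2) (runS F G N z.1).2)) := by
      refine Primrec.option_bind ?_ ?_
      · exact hFB0.comp (Primrec.list_length.comp Primrec.fst) (primrec_numOf.comp Primrec.snd)
      · have h2 : Primrec (fun z : (List ℕ × List Bool) × ℕ => (runS F G z.2 z.1.1).2) :=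
          Primrec.snd.comp ((primrec_runS hF0 hG0).comp Primrec.snd
            (Primrec.fst.comp Primrec.fst))
        exact primrec_look.comp (Primrec.pair (Primrec.const true)
          (Primrec.pair (primrec_restOf.comp (Primrec.snd.comp Primrec.fst)) h2))
    have h3 : Primrec₂ (fun (σ : List ℕ) (q : List Bool) => (FB σ.length (numOf q)).bind
        (fun N => look true (restOf q) (runS F G N σ).2)) := h1
    have h4 := recIn_of_stepped g h3
    have h5 : (fun q : List Bool => Nat.rfindOpt (fun k =>
          (FB (pre g k).length (numOf q)).bind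
            (fun N => look true (restOf q) (runS F G N (pre g k)).2))) =
        (fun q => Nat.rfindOpt (fun k => look true (restOf q)
          (runS F G (B (numOf q)) (pre g k)).2)) := by
      funext q
      obtain ⟨m0, hm0⟩ := (hFB1 (numOf q) (B (numOf q))).1 (Part.mem_some _)
      have hmon : ∀ {a : List Bool} {m n' : ℕ}, m ≤ n' →
          a ∈ look true (restOf q) (runS F G (B (numOf q)) (pre g m)).2 →
          a ∈ look true (restOf q) (runS F G (B (numOf q)) (pre g n')).2 := by
        intro a m n' hmn hm
        rw [runS_pre] at hm ⊢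
        exact look_grow (runX_grow hmn) hm
      have hmon2 : ∀ {a : List Bool} {m n' : ℕ}, m ≤ n' →
          a ∈ ((FB (pre g m).length (numOf q)).bind
            (fun N => look true (restOf q) (runS F G N (pre g m)).2)) →
          a ∈ ((FB (pre g n').length (numOf q)).bind
            (fun N => look true (restOf q) (runS F G N (pre g n')).2)) := by
        intro a m n' hmn hm
        simp only [Option.mem_def, Option.bind_eq_some_iff, length_pre] at hm ⊢
        obtain ⟨N, hN, hl⟩ := hm
        have hNB : N = B (numOf q) := by
          rcases hB1 (numOf q) m with h | h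
          · rw [h] at hN; simpa using hN.symm
          · rw [h] at hN; simp at hN
        subst hNB
        exact ⟨_, hFB2 _ _ _ _ hmn hN, hmon hmn hl⟩
      apply Part.ext
      intro a
      rw [Nat.rfindOpt_mono hmon, Nat.rfindOpt_mono hmon2]
      constructor
      · rintro ⟨m, hm⟩
        simp only [Option.mem_def, Option.bind_eq_some_iff, length_pre] at hm
        obtain ⟨N, hN, hl⟩ := hm
        have hNB : N = B (numOf q) := by
          rcases hB1 (numOf q) m with h | h
          · rw [h] at hN; simpa using hN.symm
          · rw [h] at hN; simp at hN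
        subst hNB
        exact ⟨m, hl⟩
      · rintro ⟨m, hm⟩
        refine ⟨max m m0, ?_⟩
        simp only [Option.mem_def, Option.bind_eq_some_iff, length_pre]
        exact ⟨_, hFB2 _ _ _ _ (le_max_right m m0) hm0, hmon (le_max_left m m0) hm⟩
    rw [← hgX, ← h5]
    exact h4)
  obtain ⟨c3, hc3⟩ := condC_triv hD
  obtain ⟨c4, hc4⟩ := oracleC_triv hV
  refine ⟨c1 + c2 + c3 + c4 + 7, ?_⟩
  intro n
  have hN : n ≤ B (g' n) := hBn n
  set N := B (g' n) with hNdef
  have hlen : unlen (x N).length = N := by
    rw [hx1 N]; exact unlen_len N
  refine ⟨x N, ?_⟩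
  intro s hs
  constructor
  · obtain ⟨π, hπ, hπl⟩ := oracleC_spec hV s
    by_cases hlen' : π.length ≤ N
    · have h1 := hx2 N π s hlen' (by omega) hπ
      obtain ⟨q, hq, hql⟩ := hc1 π (x N) s (by
        simp only [hlen]
        exact h1)
      have h2 := condC_le s (x N) q hq
      omega
    · have := hc3 s (x N)
      omega
  · obtain ⟨p, hp, hpl⟩ := condC_spec hD s (x N)
    by_cases hlen' : p.length ≤ N
    · have h1 := hx3 N p s hlen' (by omega) hp
      obtain ⟨q, hq, hql⟩ := hc2 (putNum (g' n) p) s (by
        simp only [numOf_putNum, restOf_putNum, runS_pre]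
        exact h1)
      have h2 := oracleC_le s q hq
      rw [length_putNum] at hql
      have h3 := size_le_half (g' n)
      omega
    · have := hc4 s
      omega

end Pool.Agent.J6H86.OP
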