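import Mathlib
import Pool.Agent.J6H86.OP.Pos
import Pool.Agent.J6H86.OP.Neg

set_option autoImplicit false

/-! # No bounded error -/

namespace Pool.Agent.J6H86.OP

open Pool.Agent.Helper760.OracleC Pool.Agent.Helper760.Kolm Pool.Agent.Helper760.OracleNF
  Pool.Agent.Helper760.OracleSim
open Encodable Filter

attribute [local irreducible] fin UU

/-- initial segments of the oracle are simple for the oracle -/
theorem oracleC_bpre (X : ℕ → Bool) (V : List Bool →. List Bool) (hV : OptimalIn X V) :
    ∃ a : ℕ, ∀ m, oracleC V (bpre X m) ≤ 2 * Nat.size m + a := by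
  have hgX : ((gX X : ℕ → ℕ) : ℕ →. ℕ) = oracleFn X := rfl
  have hU : Primrec₂ (fun (σ : List ℕ) (q : List Bool) =>
      if numOf q ≤ σ.length then some ((σ.take (numOf q)).map (fun b => decide (b = 1)))
      else (none : Option (List Bool))) := by
    refine Primrec.ite ?_ (Primrec.option_some.comp ?_) (Primrec.const none)
    · exact Primrec.nat_le.comp (primrec_numOf.comp Primrec.snd)
        (Primrec.list_length.comp Primrec.fst)
    · refine Primrec.list_map ?_ ?_
      · exact Primrec.list_take.comp (primrec_numOf.comp Primrec.snd) Primrec.fst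
      · exact (Primrec.eq.comp Primrec.snd (Primrec.const 1)).decide
  obtain ⟨a, ha⟩ := hV.2 _ (by
    rw [← hgX]
    exact recIn_of_stepped (gX X) hU)
  refine ⟨a + 1, fun m => ?_⟩
  obtain ⟨q, hq, hl⟩ := ha (putNum m []) (bpre X m) (by
    have hval : ∀ k, m ≤ k → ((pre (gX X) k).take m).map (fun b => decide (b = 1)) =
        bpre X m := by
      intro k hk
      rw [pre_gX, ← List.map_take, take_bpre X hk, List.map_map]
      have h1 : ((fun b => decide (b = 1)) ∘ Bool.toNat : Bool → Bool) = id := by
        funext b; cases b <;> rfl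
      rw [h1, List.map_id]
    refine (Nat.rfindOpt_mono ?_).2 ⟨m, ?_⟩
    · intro b j k hjk hb
      simp only [numOf_putNum, length_pre, Option.mem_def] at hb ⊢
      split_ifs at hb with h1
      rw [if_pos (by omega)]
      rw [hval j h1] at hb
      rw [hval k (by omega)]
      exact hb
    · simp only [numOf_putNum, length_pre, Option.mem_def, le_refl, if_true]
      rw [hval m le_rfl])
  have h2 := oracleC_le _ q hq
  rw [length_putNum] at hl
  simp only [List.length_nil] at hl
  omega

/-- **Some oracle is not replaced with bounded error.** -/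
theorem no_bounded_error : ∃ X : ℕ → Bool, ∀ D : List Bool → List Bool →. List Bool,
    OptimalCond D → ∀ V : List Bool →. List Bool, OptimalIn X V → ∀ c : ℕ, ∀ᶠ n : ℕ in atTop,
    ∃ S : Finset (List Bool), (∀ s ∈ S, s.length ≤ n) ∧ S.card ≤ 2 * n + 1 ∧
      ∀ x : List Bool, ∃ s ∈ S, condC D s x + c < oracleC V s ∨
        oracleC V s + c < condC D s x := by
  classical
  obtain ⟨D0, hD0⟩ := exists_optimalCond
  obtain ⟨F, hF0, hF1, hF2⟩ :=
    exists_stepped (f := fun a : List Bool × List Bool => D0 a.1 a.2) hD0.1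
  have hstab := outs_stable F hF2
  choose T hTs using hstab
  set hh : ℕ → List Bool := fun r => hT F r (T r) with hhh
  have hh_eq : ∀ r T', T r ≤ T' → hT F r T' = hh r := by
    intro r T' hT'
    simp only [hhh]
    unfold hT
    rw [hTs r T' hT']
  have hh1 : ∀ r p, p.length ≤ r → hh r ∉ D0 p [] := by
    intro r p hp hmem
    obtain ⟨t, ht⟩ := (hF1 (p, []) (hh r)).1 hmem
    have h1 := (hT_spec F r (T r)).2
    apply h1
    have h2 : outs F r (max t (T r)) = outs F r (T r) := hTs r _ (le_max_right _ _)
    rw [← h2]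
    unfold outs
    rw [List.mem_filterMap]
    exact ⟨p, (mem_allLe r p).2 hp, hF2 _ _ _ _ (le_max_left _ _) ht⟩
  have hhlen : ∀ r, (hh r).length = r + 1 := fun r =>
    (mem_allLen _ _).1 (hT_spec F r (T r)).1
  obtain ⟨X, hX⟩ := exists_generic (fun e τ =>
    if e % 2 = 0 then
      e / 2 ≤ τ.length ∧ ∀ x : List Bool, x.length ≤ e / 2 → ∀ p : List Bool,
        p.length ≤ 2 * Nat.size τ.length + e / 2 → τ ∉ D0 p x
    else
      ∃ r ≥ e / 2, ∀ ν, τ <+: ν → ∀ π : List Bool, π.length ≤ 2 * Nat.size r + e / 2 →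
        fin ν π ≠ some (hh r)) (by
    intro e σ
    by_cases he : e % 2 = 0
    · simp only [if_pos he]
      exact force_one (e / 2) σ
    · simp only [if_neg he]
      exact force_two hD0 hh hh1 (e / 2) σ)
  refine ⟨X, ?_⟩
  intro D hD V hV c
  obtain ⟨a2, ha2⟩ := hD0.2 D hD.1
  obtain ⟨a3, ha3⟩ := (optimalIn_VV X).2 V hV.1
  obtain ⟨a4, ha4⟩ := oracleC_bpre X V hV
  obtain ⟨a5, ha5⟩ := hD.2 (fun q y => Part.some (hT F (numOf q) y.length)) (by
    have h1 : Primrec (fun z : List Bool × List Bool =>
        hT F (numOf z.1) z.2.length) :=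
      (primrec_hT hF0).comp (primrec_numOf.comp Primrec.fst)
        (Primrec.list_length.comp Primrec.snd)
    exact h1.to_comp)
  obtain ⟨k2, hk2⟩ := hX (2 * (1 + a5 + c + a3) + 1)
  have hodd : ¬ (2 * (1 + a5 + c + a3) + 1) % 2 = 0 := by omega
  have hhalf : (2 * (1 + a5 + c + a3) + 1) / 2 = 1 + a5 + c + a3 := by omega
  simp only [if_neg hodd, hhalf] at hk2
  obtain ⟨r, _, hr⟩ := hk2
  set e1 := max (T r) (a4 + c + a2) with he1
  obtain ⟨m, hm⟩ := hX (2 * e1)
  have heven : (2 * e1) % 2 = 0 := by omega
  have hhalf2 : (2 * e1) / 2 = e1 := by omega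
  simp only [if_pos heven, hhalf2, length_bpre] at hm
  filter_upwards [eventually_ge_atTop (max m (r + 1))] with n hn
  have hn1 : m ≤ n := (le_max_left m (r + 1)).trans hn
  have hn2 : r + 1 ≤ n := (le_max_right m (r + 1)).trans hn
  refine ⟨(Finset.range (n + 1)).image (bpre X) ∪ (Finset.range n).image hh, ?_, ?_, ?_⟩
  · intro s hs
    rw [Finset.mem_union, Finset.mem_image, Finset.mem_image] at hs
    rcases hs with ⟨i, hi, rfl⟩ | ⟨i, hi, rfl⟩
    · rw [Finset.mem_range] at hi
      rw [length_bpre]; omega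
    · rw [Finset.mem_range] at hi
      rw [hhlen]; omega
  · refine (Finset.card_union_le _ _).trans ?_
    have h1 := Finset.card_image_le (s := Finset.range (n + 1)) (f := bpre X)
    have h2 := Finset.card_image_le (s := Finset.range n) (f := hh)
    rw [Finset.card_range] at h1 h2
    omega
  · intro x
    by_contra hcon
    push Not at hcon
    rcases le_or_gt x.length e1 with hx | hx
    · have hmem : bpre X m ∈ (Finset.range (n + 1)).image (bpre X) ∪
          (Finset.range n).image hh :=
        Finset.mem_union_left _ (Finset.mem_image_of_mem _ (Finset.mem_range.2 (by omega)))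
      have h1 := (hcon _ hmem).2
      obtain ⟨p, hp, hpl⟩ := condC_spec hD (bpre X m) x
      obtain ⟨q, hq, hql⟩ := ha2 p x _ hp
      refine hm.2 x hx q ?_ hq
      have h2 := ha4 m
      have h3 : a4 + c + a2 ≤ e1 := le_max_right _ _
      omega
    · have hmem : hh r ∈ (Finset.range (n + 1)).image (bpre X) ∪
          (Finset.range n).image hh :=
        Finset.mem_union_right _ (Finset.mem_image_of_mem _ (Finset.mem_range.2 (by omega)))
      have h1 := (hcon _ hmem).1
      have hT1 : T r ≤ x.length := (le_max_left _ _).trans hx.le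
      obtain ⟨q0, hq0, hq0l⟩ := ha5 (putNum r []) x (hh r) (by
        rw [numOf_putNum, hh_eq r _ hT1]
        exact Part.mem_some _)
      have h2 := condC_le _ _ q0 hq0
      rw [length_putNum] at hq0l
      simp only [List.length_nil] at hq0l
      obtain ⟨π, hπ, hπl⟩ := oracleC_spec hV (hh r)
      obtain ⟨q, hq, hql⟩ := ha3 π _ hπ
      obtain ⟨k, hk⟩ := fin_of_VV hq
      have h3 := fin_mono (bpre_prefix X (le_max_left k k2)) hk
      exact hr _ (bpre_prefix X (le_max_right k k2)) q (by omega) h3

end Pool.Agent.J6H86.OP
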