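import Mathlib
import Pool.Agent.J6H86.OP.Pos

set_option autoImplicit false

/-! # The logarithmic error as a special case -/

namespace Pool.Agent.J6H86.OP

open Pool.Agent.Helper760.OracleC Pool.Agent.Helper760.Kolm Pool.Agent.Helper760.OracleNF
  Pool.Agent.Helper760.OracleSim
open Encodable Filter

theorem size_eq_length (n : ℕ) : Nat.size n = ((List.range n).filterMap
    (fun k => if 2 ^ k ≤ n then some k else none)).length := by
  rw [List.length_filterMap_eq_countP]
  have h1 : ∀ m, (List.range m).countP (fun k => decide (k < Nat.size n)) =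
      min m (Nat.size n) := by
    intro m
    induction m with
    | zero => simp
    | succ m ih =>
      rw [List.range_succ, List.countP_append, ih]
      by_cases hm : m < Nat.size n
      · simp [List.countP_cons, hm]; omega
      · simp [List.countP_cons, hm]; omega
  have h2 : (List.range n).countP (fun a => (if 2 ^ a ≤ n then some a else none).isSome) =
      (List.range n).countP (fun k => decide (k < Nat.size n)) := by
    apply List.countP_congr
    intro k _
    by_cases hk : 2 ^ k ≤ n
    · simp [hk, Nat.lt_size]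
    · simp [hk, Nat.lt_size]
  rw [h2, h1 n, min_eq_right]
  rw [Nat.size_le]
  exact Nat.lt_pow_self (by norm_num)

theorem primrec_size : Primrec Nat.size := by
  have h1 : Primrec (fun n : ℕ => ((List.range n).filterMap
      (fun k => if 2 ^ k ≤ n then some k else none)).length) := by
    refine Primrec.list_length.comp (Primrec.listFilterMap Primrec.list_range ?_)
    refine Primrec.ite ?_ (Primrec.option_some.comp Primrec.snd) (Primrec.const none)
    exact Primrec.nat_le.comp (primrec_pow.comp (Primrec.const 2) Primrec.snd) Primrec.fst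
  exact h1.of_eq (fun n => (size_eq_length n).symm)

theorem size_tendsto : Tendsto Nat.size atTop atTop := by
  rw [tendsto_atTop]
  intro b
  filter_upwards [eventually_ge_atTop (2 ^ b)] with n hn
  exact (Nat.lt_size.2 hn).le

/-- the logarithmic error -/
theorem log_error (X : ℕ → Bool) (D : List Bool → List Bool →. List Bool)
    (hD : OptimalCond D) (V : List Bool →. List Bool) (hV : OptimalIn X V) (k : ℕ) :
    ∃ c : ℝ, ∀ n : ℕ, 2 ≤ n → ∀ S : Finset (List Bool), (∀ s ∈ S, s.length ≤ n) →
      S.card ≤ n ^ k → ∃ x : List Bool, ∀ s ∈ S,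
        |(condC D s x : ℝ) - (oracleC V s : ℝ)| ≤ c * Real.log n := by
  obtain ⟨c, hc⟩ := simulate_slow X D hD V hV Nat.size primrec_size.to_comp
    (fun a b h => Nat.size_le_size h) size_tendsto
  refine ⟨3 + c / Real.log 2, fun n hn S hS _ => ?_⟩
  obtain ⟨x, hx⟩ := hc n
  refine ⟨x, fun s hs => ?_⟩
  obtain ⟨h1, h2⟩ := hx s (hS s hs)
  have h1' : (condC D s x : ℝ) ≤ oracleC V s + c := by exact_mod_cast h1
  have h2' : (oracleC V s : ℝ) ≤ condC D s x + Nat.size n + c := by exact_mod_cast h2
  have h3 := size_le_log n hn
  have hlog2 : 0 < Real.log 2 := Real.log_pos (by norm_num)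
  have h4 : Real.log 2 ≤ Real.log n := Real.log_le_log (by norm_num) (by exact_mod_cast hn)
  have h5 : (c : ℝ) ≤ c / Real.log 2 * Real.log n := by
    rw [div_mul_eq_mul_div, le_div_iff₀ hlog2]
    exact mul_le_mul_of_nonneg_left h4 (Nat.cast_nonneg c)
  have h6 : (0 : ℝ) ≤ Nat.size n := Nat.cast_nonneg _
  have h7 : (0 : ℝ) ≤ c := Nat.cast_nonneg _
  rw [abs_le, add_mul]
  constructor <;> linarith

end Pool.Agent.J6H86.OP
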